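import Pool.Agent.Y103.Fj.Hk

/-!
# The standard conjecture of Hodge type for products of divisors on varieties with a Fujiki relation
-/

set_option autoImplicit false

open CategoryTheory AlgebraicGeometry Submodule

universe u v

namespace Pool.Agent.Q70.HT

open Pool.Agent.H914 Pool.Agent.H914.VarClass Pool.Agent.H914.VarClass.Obj
  Pool.Agent.H914.WeilCohomology Pool.Agent.H281R3.HT Pool.Agent.W552 Pool.Agent.Y103
  Pool.Agent.Y103.Fj

variable {k : Type u} [Field k] {𝒱 : VarClass k} {ops : CycleOps 𝒱}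

/-- The Hodge index theorem for the divisor `D` on `X`: every divisor `z` whose class is primitive and
not zero satisfies `z · z · D ^ (dim X - 2) < 0`. -/
def HodgeIndex (W : WeilCohomology.{u, v} ops) (X : 𝒱.Obj) (D : X.Cycles) : Prop :=
  ∀ z, X.IsCyc 1 z → W.cl X (divPow ops D (X.dim - 1) z) = 0 → W.cl X z ≠ 0 →
    X.V.degCycle (ops.mul z (divPow ops D (X.dim - 2) z)) < 0

/-- The number `c` and the quadratic form `q` on the divisors of the variety `X` of dimension `2 n`
satisfy the relation of Fujiki: the degree of `z ^ (2 n)` is `c * q(z) ^ n` for all divisors `z`. -/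
def FujikiRelation (ops : CycleOps 𝒱) (X : 𝒱.Obj) (n : ℕ) (c : ℚ) (q : QuadraticForm ℚ X.Cycles) :
    Prop :=
  ∀ z, X.IsCyc 1 z → X.V.degCycle (divPow ops z (2 * n) X.V.fundCycle) = c * q z ^ n

/-- The class is a linear combination, with coefficients in the coefficient field of the cohomology,
of products of `j` classes of divisors. -/
def IsDivisorial (W : WeilCohomology.{u, v} ops) (X : 𝒱.Obj) (j : ℕ) (x : W.H X) : Prop :=
  x ∈ genRing W.K (algClasses W X) 1 j

variable {W : WeilCohomology.{u, v} ops} {X : 𝒱.Obj} {D : X.Cycles} {n : ℕ}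

lemma hodge_one (hn : X.dim = 2 * n) (hn1 : 1 ≤ n) (hD : X.IsCyc 1 D)
    (hdeg : 0 < X.V.degCycle (divPow ops D X.dim X.V.fundCycle)) (hI : HodgeIndex W X D) :
    HodgeTypeFor W X D (InRing W.K (algClasses W X) 1 1) := by
  rintro j hj z hz ⟨i, hi, hzi⟩ hp h0
  have hgr : W.cl X z ∈ W.gr X (2 * i) := genRing_gr (fun _ => subset_rfl) hzi
  have hij : j = i := by
    by_contra hij
    apply h0
    have h1 := W.cl_mem hz
    have h3 := proj_same (W.isInternal X) h1
    have h4 := proj_ne (W.isInternal X) (j := 2 * j) hgr (by omega)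
    rw [← h3, h4]
  subst hij
  interval_cases j
  · -- codimension zero
    have h1 := W.cl_mem hz
    rw [mul_zero, W.gr_zero, mem_span_singleton] at h1
    obtain ⟨s, hs⟩ := h1
    have h2 := deg_eq (W := W) hz (divPow_mem (ops := ops) hD X.dim hz) (by omega)
    have h5 : X.IsCyc X.dim (divPow ops D X.dim X.V.fundCycle) := by
      have := divPow_mem (ops := ops) hD X.dim X.V.fundCycle_mem
      rwa [zero_add] at this
    have h6 := W.tr_cl h5
    rw [cl_divPow, mulLeft_pow_apply', W.cl_fund, mul_one] at h6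
    have h7 := deg_eq (W := W) hz h5 (by omega)
    rw [cl_divPow, mulLeft_pow_apply', W.cl_fund, mul_one, ← hs, smul_mul_assoc, one_mul, map_smul,
      h6, smul_eq_mul] at h7
    rw [cl_divPow, mulLeft_pow_apply', ← hs, smul_mul_assoc, one_mul, mul_smul_comm, mul_one,
      map_smul, map_smul, h6, smul_eq_mul, smul_eq_mul] at h2
    set t := X.V.degCycle (divPow ops D X.dim X.V.fundCycle) with ht
    set r := X.V.degCycle (ops.mul z (divPow ops D X.dim X.V.fundCycle)) with hr
    have h8 : s = ((r / t : ℚ) : W.K) := by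
      rw [Rat.cast_div, ← h7, mul_div_assoc, div_self, mul_one]
      exact_mod_cast hdeg.ne'
    have hs0 : s ≠ 0 := by
      rintro rfl
      apply h0
      rw [← hs, zero_smul]
    have h9 : r / t ≠ 0 := by
      intro h
      rw [h, Rat.cast_zero] at h8
      exact hs0 h8
    have h10 : X.V.degCycle (ops.mul z (divPow ops D X.dim z)) = (r / t) * ((r / t) * t) := by
      rw [h8] at h2
      exact_mod_cast h2.symm
    rw [mul_zero, Nat.sub_zero, pow_zero, one_mul, h10, ← mul_assoc]
    exact mul_pos (mul_self_pos.2 h9) hdeg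
  · -- divisors
    have h1 := hI z hz (by
      rw [show X.dim - 1 = X.dim - 2 * 1 + 1 by omega]
      exact hp) h0
    rw [pow_one, mul_one, neg_one_mul]
    exact neg_pos.2 h1

/-- **The standard conjectures of Hodge type and `D` for products of divisors on varieties with a
relation of Fujiki.** -/
theorem std_fujiki (hn : X.dim = 2 * n) (hn1 : 1 ≤ n) (hD : X.IsCyc 1 D)
    (hdeg : 0 < X.V.degCycle (divPow ops D X.dim X.V.fundCycle)) (hI : HodgeIndex W X D) {c : ℚ}
    {q : QuadraticForm ℚ X.Cycles} (hF : FujikiRelation ops X n c q) :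
    StdFor W X D (InRing W.K (algClasses W X) 1 n) := by
  have h1 := hodge_one hn hn1 hD hdeg hI
  have h2 : 0 < c * q D ^ n := by
    rw [← hF D hD, ← hn]
    exact hdeg
  rcases lt_trichotomy (q D) 0 with h | h | h
  · refine hodge_fujiki (q := -q) (c := (-1) ^ n * c) hn hn1 hD ?_ ?_ ?_ h1
    · have h3 : c * q D ^ n = (-1) ^ n * c * (-q D) ^ n := by
        rw [neg_pow (q D) n]
        calc c * q D ^ n = ((-1) ^ n * (-1) ^ n) * (c * q D ^ n) := by
              rw [← mul_pow, neg_one_mul, neg_neg, one_pow, one_mul]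
          _ = _ := by ring
      rw [h3] at h2
      exact (pos_iff_pos_of_mul_pos h2).2 (pow_pos (neg_pos.2 h) n)
    · intro z hz
      rw [hF z hz, QuadraticMap.neg_apply, neg_pow (q z) n]
      calc c * q z ^ n = ((-1) ^ n * (-1) ^ n) * (c * q z ^ n) := by
            rw [← mul_pow, neg_one_mul, neg_neg, one_pow, one_mul]
        _ = _ := by ring
    · rw [QuadraticMap.neg_apply]
      exact neg_pos.2 h
  · rw [h, zero_pow (by omega), mul_zero] at h2
    exact absurd h2 (lt_irrefl _)
  · exact hodge_fujiki hn hn1 hD ((pos_iff_pos_of_mul_pos h2).2 (pow_pos h n)) hF h h1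

/-- **The standard conjectures of Hodge type and `D`**, explicit form. -/
theorem main (hn : X.dim = 2 * n) (hn1 : 1 ≤ n) (hD : X.IsCyc 1 D)
    (hdeg : 0 < X.V.degCycle (divPow ops D X.dim X.V.fundCycle)) (hI : HodgeIndex W X D) {c : ℚ}
    {q : QuadraticForm ℚ X.Cycles} (hF : FujikiRelation ops X n c q) {j : ℕ} (hj : j ≤ n)
    {z : X.Cycles} (hz : X.IsCyc j z) (hzd : IsDivisorial W X j (W.cl X z)) (h0 : W.cl X z ≠ 0) :
    (W.cl X (divPow ops D (X.dim - 2 * j + 1) z) = 0 →
      0 < (-1 : ℚ) ^ j * X.V.degCycle (ops.mul z (divPow ops D (X.dim - 2 * j) z))) ∧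
    ∃ w, X.IsCyc (X.dim - j) w ∧ X.V.degCycle (ops.mul z w) ≠ 0 := by
  have h := std_fujiki hn hn1 hD hdeg hI hF
  refine ⟨fun hp => h.1 j (by omega) z hz ⟨j, hj, hzd⟩ hp h0, ?_⟩
  by_contra hw
  push Not at hw
  exact h0 (h.2 j (by omega) z hz ⟨j, hj, hzd⟩ hw)

end Pool.Agent.Q70.HT
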