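import Pool.Agent.Q70.HT.Fujiki
import Pool.Agent.W534.Tate

/-!
# The standard conjecture of Hodge type for varieties whose Tate classes are generated in low codimension
-/

set_option autoImplicit false

open CategoryTheory AlgebraicGeometry Submodule

universe u v

namespace Pool.Agent.Q70.HT

open Pool.Agent.H914 Pool.Agent.H914.VarClass Pool.Agent.H914.VarClass.Obj
  Pool.Agent.H914.WeilCohomology Pool.Agent.H281R3.HT Pool.Agent.W552 Pool.Agent.Y103
  Pool.Agent.W534

variable {k : Type u} [Field k] {𝒱 : VarClass k} {ops : CycleOps 𝒱}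
  {W : WeilCohomology.{u, v} ops} {X : 𝒱.Obj} {D : X.Cycles} {p : ℕ} {Φ : FrobSystem W p}
  {ι : W.K ≃+* ℂ} {c : W.H X → W.H X} {m : ℕ}

/-- The Tate classes of degree `2 j ≤ dim X` are generated by algebraic classes of codimension at most
`m`: they are linear combinations, with coefficients in the coefficient field, of products of such
classes. -/
def TateGenerated (Φ : FrobSystem W p) (X : 𝒱.Obj) (m : ℕ) : Prop :=
  ∀ j, 2 * j ≤ X.dim → ∀ t, IsTate Φ X j t → t ∈ genRing W.K (algClasses W X) m j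

/-- The map `c` preserves the Tate classes and their degrees. -/
def PreservesTate (Φ : FrobSystem W p) (X : 𝒱.Obj) (c : W.H X → W.H X) : Prop :=
  ∀ j t, IsTate Φ X j t → IsTate Φ X j (c t)

/-- The conjecture of Hodge type for `X` and `D` in the single codimension `j`. -/
def HodgeTypeIn (W : WeilCohomology.{u, v} ops) (X : 𝒱.Obj) (D : X.Cycles) (j : ℕ) : Prop :=
  ∀ z, X.IsCyc j z → W.cl X (divPow ops D (X.dim - 2 * j + 1) z) = 0 → W.cl X z ≠ 0 →
    0 < (-1 : ℚ) ^ j * X.V.degCycle (ops.mul z (divPow ops D (X.dim - 2 * j) z))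

lemma tate_of_span {i : ℕ} {x : W.H X} (hx : x ∈ genRing W.K (algClasses W X) m i) :
    IsTate Φ X i x := by
  have hsm : ∀ (a : W.K) (y : W.H X), IsTate Φ X i y → IsTate Φ X i (a • y) := by
    rintro a y ⟨h1, s, hs, h2⟩
    exact ⟨Submodule.smul_mem _ _ h1, s, hs, by rw [map_smul, h2, smul_comm]⟩
  induction hx using span_induction with
  | mem x hx =>
    obtain ⟨z, hz, rfl⟩ := (RatMon.mon (K := W.K) hx).alg (fun _ => subset_rfl)
    exact ⟨W.cl_mem hz, Φ.cyc hz⟩
  | zero => exact (tateFam Φ).zero X i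
  | add a b _ _ ha hb => exact (tateFam Φ).add ha hb
  | smul a b _ hb => exact hsm a b hb

lemma ringStable (hm : 2 * m ≤ X.dim) (hc : PreservesTate Φ X c) (hg : TateGenerated Φ X m) :
    RingStable W.K (algClasses W X) m c := by
  intro i _ hi a ha
  obtain ⟨z, hz, rfl⟩ := ha
  exact hg i (by omega) _ (hc i _ ⟨W.cl_mem hz, Φ.cyc hz⟩)

lemma lefschetzStable (hD : X.IsCyc 1 D) (hHL : HardLefschetz W X D) (hg : TateGenerated Φ X m) :
    LefschetzStable W.K (algClasses W X) m X.dim (W.cl X D) := by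
  intro j hj a ha
  have haT : IsTate Φ X (j + 1) a := tate_of_span ha
  obtain ⟨hagr, s, hs, hFa⟩ := haT
  obtain ⟨t, ht, hFD⟩ := Φ.cyc hD
  -- a common exponent
  have hFa' := frob_mul Φ hFa t
  have hFD' := frob_mul' Φ hFD s
  set e := s * t with he
  set F := W.map (Pool.Agent.W534.iter (Φ.Fr X) e) with hF
  have hagr' : W.cl X D ^ (X.dim - 2 * j - 1) * a ∈ W.gr X (2 * X.dim - 2 * j) := by
    have h1 := alg_gr (pow_alg (W := W) hD (X.dim - 2 * j - 1))
    have h2 := W.mul_mem h1 hagr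
    rwa [show 2 * (X.dim - 2 * j - 1) + 2 * (j + 1) = 2 * X.dim - 2 * j by omega] at h2
  obtain ⟨b, hb, hba⟩ := (hHL (2 * j) (by omega)).2 _ hagr'
  rw [mulLeft_pow_apply'] at hba
  have hFb : F b = ((p : W.K) ^ (Φ.e X * e * j)) • b := by
    have h1 : W.cl X D ^ (X.dim - 2 * j) * (F b - ((p : W.K) ^ (Φ.e X * e * j)) • b) = 0 := by
      have h2 := congrArg F hba
      rw [map_mul, map_pow, map_mul, map_pow, hFD', hFa', smul_pow, smul_pow, smul_mul_assoc,
        smul_mul_smul_comm, ← hba] at h2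
      have h3 : (((p : W.K) ^ (Φ.e X * e * 1)) ^ (X.dim - 2 * j)) ≠ 0 :=
        pow_ne_zero _ (pow_ne_zero _ (cast_p_ne Φ))
      apply smul_right_injective (W.H X) h3
      change ((p : W.K) ^ (Φ.e X * e * 1)) ^ (X.dim - 2 * j) •
        (W.cl X D ^ (X.dim - 2 * j) * (F b - ((p : W.K) ^ (Φ.e X * e * j)) • b)) =
          ((p : W.K) ^ (Φ.e X * e * 1)) ^ (X.dim - 2 * j) • 0
      rw [mul_sub, smul_sub, h2, mul_smul_comm, smul_smul, smul_zero, ← sub_smul]
      have h4 : ((p : W.K) ^ (Φ.e X * e * 1)) ^ (X.dim - 2 * j - 1) *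
          (p : W.K) ^ (Φ.e X * e * (j + 1)) - ((p : W.K) ^ (Φ.e X * e * 1)) ^ (X.dim - 2 * j) *
            (p : W.K) ^ (Φ.e X * e * j) = 0 := by
        rw [sub_eq_zero, ← pow_mul, ← pow_mul, ← pow_add, ← pow_add]
        congr 1
        obtain ⟨r, hr⟩ : ∃ r, X.dim - 2 * j = r + 1 := ⟨X.dim - 2 * j - 1, by omega⟩
        rw [hr, Nat.add_sub_cancel]
        ring
      rw [h4, zero_smul]
    have h5 := (hHL (2 * j) (by omega)).1 (F b - ((p : W.K) ^ (Φ.e X * e * j)) • b)
      (Submodule.sub_mem _ (W.map_mem _ hb) (Submodule.smul_mem _ _ hb)) (by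
        rw [mulLeft_pow_apply']; exact h1)
    exact sub_eq_zero.1 h5
  have hbT : IsTate Φ X j b := ⟨hb, e, Nat.mul_pos hs ht, hFb⟩
  refine ⟨b, hg j (by omega) b hbT, ?_⟩
  rw [mul_sub, ← mul_assoc, ← pow_succ, show X.dim - 2 * (j + 1) + 1 = X.dim - 2 * j - 1 by omega,
    show X.dim - 2 * j - 1 + 1 = X.dim - 2 * j by omega, hba, sub_self]

/-- **Hodge type in low codimension implies Hodge type in all codimensions**. -/
theorem hodge_of_low (hD : X.IsCyc 1 D) (hHL : HardLefschetz W X D) (hc : HodgeRiemann W X D ι c)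
    (hcT : PreservesTate Φ X c) (hm1 : 1 ≤ m) (hm : 2 * m ≤ X.dim) (hg : TateGenerated Φ X m)
    (h : ∀ j ≤ m, HodgeTypeIn W X D j) :
    HodgeType W X D ∧ ∀ j, 2 * j ≤ X.dim → ∀ z, X.IsCyc j z →
      (∀ w, X.IsCyc (X.dim - j) w → X.V.degCycle (ops.mul z w) = 0) → W.cl X z = 0 := by
  have h1 := hodge_generated hD hc hm1 (R := algClasses W X) (fun _ => subset_rfl)
    (⟨D, hD, rfl⟩ : W.cl X D ∈ algClasses W X 1) (ringStable hm hcT hg)
    (lefschetzStable hD hHL hg) (by
      rintro j hj z hz ⟨i, hi, hzi⟩ hp h0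
      have hgr : W.cl X z ∈ W.gr X (2 * i) := genRing_gr (fun _ => subset_rfl) hzi
      have hij : j = i := by
        by_contra hij
        apply h0
        have h1 := W.cl_mem hz
        have h3 := proj_same (W.isInternal X) h1
        have h4 := proj_ne (W.isInternal X) (j := 2 * j) hgr (by omega)
        rw [← h3, h4]
      subst hij
      exact h j hi z hz hp h0)
  have hmem : ∀ j, 2 * j ≤ X.dim → ∀ z, X.IsCyc j z →
      InRing W.K (algClasses W X) m (X.dim / 2) (W.cl X z) := fun j hj z hz =>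
    ⟨j, by omega, hg j hj _ ⟨W.cl_mem hz, Φ.cyc hz⟩⟩
  exact ⟨fun j hj z hz hp h0 => h1.1 j hj z hz (hmem j hj z hz) hp h0,
    fun j hj z hz hw => h1.2 j (by omega) z hz (hmem j hj z hz) hw⟩

/-- The conjecture of Hodge type in codimension zero. -/
theorem hodge_zero (hD : X.IsCyc 1 D) (hdeg : 0 < X.V.degCycle (divPow ops D X.dim X.V.fundCycle)) :
    HodgeTypeIn W X D 0 := by
  intro z hz _ h0
  have h1 := W.cl_mem hz
  rw [mul_zero, W.gr_zero, mem_span_singleton] at h1
  obtain ⟨s, hs⟩ := h1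
  have h2 := deg_eq (W := W) hz (divPow_mem (ops := ops) hD X.dim hz) (by omega)
  have h5 : X.IsCyc X.dim (divPow ops D X.dim X.V.fundCycle) := by
    have := divPow_mem (ops := ops) hD X.dim X.V.fundCycle_mem
    rwa [zero_add] at this
  have h6 := W.tr_cl h5
  rw [cl_divPow, mulLeft_pow_apply', W.cl_fund, mul_one] at h6
  have h7 := deg_eq (W := W) hz h5 (by omega)
  rw [cl_divPow, mulLeft_pow_apply', W.cl_fund, mul_one, ← hs, smul_mul_assoc, one_mul, map_smul,
    h6, smul_eq_mul] at h7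
  rw [cl_divPow, mulLeft_pow_apply', ← hs, smul_mul_assoc, one_mul, mul_smul_comm, mul_one,
    map_smul, map_smul, h6, smul_eq_mul, smul_eq_mul] at h2
  set t := X.V.degCycle (divPow ops D X.dim X.V.fundCycle) with ht
  set r := X.V.degCycle (ops.mul z (divPow ops D X.dim X.V.fundCycle)) with hr
  have h8 : s = ((r / t : ℚ) : W.K) := by
    rw [Rat.cast_div, ← h7, mul_div_assoc, div_self, mul_one]
    exact_mod_cast hdeg.ne'
  have hs0 : s ≠ 0 := by
    rintro rfl
    apply h0
    rw [← hs, zero_smul]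
  have h9 : r / t ≠ 0 := by
    intro h
    rw [h, Rat.cast_zero] at h8
    exact hs0 h8
  have h10 : X.V.degCycle (ops.mul z (divPow ops D X.dim z)) = (r / t) * ((r / t) * t) := by
    rw [h8] at h2
    exact_mod_cast h2.symm
  rw [mul_zero, Nat.sub_zero, pow_zero, one_mul, h10, ← mul_assoc]
  exact mul_pos (mul_self_pos.2 h9) hdeg

end Pool.Agent.Q70.HT
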